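import Pool.Agent.H33.RG.Nf

/-!
The Alekhnovich-Razborov operator over a general field, points `Fin n → Bool` (after helper91's proof of H96RE.thmB; helper33).
-/

set_option autoImplicit false
open scoped Classical

namespace H33RG

open H95RE H91RE

variable {F : Type} [Field F] {n : ℕ}

/-- the indicator of the points which falsify a clause with variables `S` and falsifying values `τ` -/
noncomputable def ind (F : Type) [Field F] {n : ℕ} (S : Finset (Fin n)) (τ : X n) : X n → F :=
  fun x => if ∀ t ∈ S, x t = τ t then 1 else 0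

theorem mulL_mono (i : Fin n) (T : Finset (Fin n)) :
    LinearMap.mulLeft F (mono F {i}) (mono F T) = mono F (insert i T) := by
  rw [LinearMap.mulLeft_apply, mono_mul, Finset.insert_eq]

theorem VJ_mono {ι : Type} (S : ι → Finset (Fin n)) (σ : ι → X n) {J J' : Finset ι} (h : J ⊆ J') :
    VJ F S σ J ≤ VJ F S σ J' :=
  fun _ hg x hx => hg x fun j hj => hx j (h hj)

theorem VJ_mul {ι : Type} (S : ι → Finset (Fin n)) (σ : ι → X n) (J : Finset ι)
    (i : Fin n) (g : X n → F) (hg : g ∈ VJ F S σ J) :
    LinearMap.mulLeft F (mono F {i}) g ∈ VJ F S σ J := by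
  intro x hx
  rw [LinearMap.mulLeft_apply, Pi.mul_apply, hg x hx, mul_zero]

theorem VJ_empty {ι : Type} (S : ι → Finset (Fin n)) (σ : ι → X n)
    (g : X n → F) (hg : g ∈ VJ F S σ (∅ : Finset ι)) : g = 0 := by
  funext x
  exact hg x fun j hj => absurd hj (Finset.notMem_empty j)

theorem mul_span (i : Fin n) (T : Finset (Fin n)) (g : X n → F)
    (hg : g ∈ Submodule.span F (mono F '' {T' : Finset (Fin n) | T' ⊆ T})) :
    LinearMap.mulLeft F (mono F {i}) g ∈
      Submodule.span F (mono F '' {T' : Finset (Fin n) | T' ⊆ insert i T}) := by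
  have hle : Submodule.span F (mono F '' {T' : Finset (Fin n) | T' ⊆ T}) ≤
      Submodule.comap (LinearMap.mulLeft F (mono F {i}))
        (Submodule.span F (mono F '' {T' : Finset (Fin n) | T' ⊆ insert i T})) := by
    rw [Submodule.span_le]
    rintro _ ⟨T', hT', rfl⟩
    show LinearMap.mulLeft F (mono F {i}) (mono F T') ∈
      Submodule.span F (mono F '' {T' : Finset (Fin n) | T' ⊆ insert i T})
    rw [mulL_mono]
    exact Submodule.subset_span ⟨_, Finset.insert_subset_insert i hT', rfl⟩
  exact hle hg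

theorem ind_span (T : Finset (Fin n)) (τ : X n) :
    ind F T τ ∈ Submodule.span F (mono F '' {T' : Finset (Fin n) | T' ⊆ T}) := by
  induction T using Finset.induction_on with
  | empty =>
    have h1 : ind F (∅ : Finset (Fin n)) τ = mono F ∅ := by
      funext x
      simp [ind, mono]
    rw [h1]
    exact Submodule.subset_span ⟨∅, Finset.Subset.refl _, rfl⟩
  | insert i T hi ih =>
    have h2 : ∀ x : X n, mono F ({i} : Finset (Fin n)) x = if x i = true then (1 : F) else 0 := by
      intro x
      simp [mono]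
    have h3 : ∀ x : X n, ind F (insert i T) τ x = (if x i = τ i then (1 : F) else 0) * ind F T τ x := by
      intro x
      simp only [ind, Finset.forall_mem_insert]
      by_cases h1 : x i = τ i
      · simp [h1]
      · simp [h1]
    have h1 : ind F (insert i T) τ =
        (if τ i = true then (1 : F) else -1) • LinearMap.mulLeft F (mono F {i}) (ind F T τ) +
          (if τ i = true then (0 : F) else 1) • ind F T τ := by
      funext x
      rw [Pi.add_apply, Pi.smul_apply, LinearMap.mulLeft_apply, Pi.mul_apply, Pi.smul_apply, smul_eq_mul, smul_eq_mul,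
        h2, h3]
      cases hx : x i <;> cases ht : τ i <;> simp
    rw [h1]
    refine Submodule.add_mem _ (Submodule.smul_mem _ _ (mul_span i T _ ih))
      (Submodule.smul_mem _ _ (Submodule.span_mono ?_ ih))
    rintro _ ⟨T', hT', rfl⟩
    exact ⟨T', Finset.Subset.trans hT' (Finset.subset_insert i T), rfl⟩

theorem span_RM {T : Finset (Fin n)} {E : ℕ} (hT : T.card ≤ E) {g : X n → F}
    (hg : g ∈ Submodule.span F (mono F '' {T' : Finset (Fin n) | T' ⊆ T})) : g ∈ RM F n E := by
  refine (Submodule.span_mono ?_ : _ ≤ RM F n E) hg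
  rintro _ ⟨T', hT', rfl⟩
  exact ⟨T', (Finset.card_le_card hT').trans hT, rfl⟩

theorem RM_eq (D : ℕ) : RM F n D = Submodule.span F (mono F '' {T : Finset (Fin n) | T.card ≤ D}) := by
  unfold RM
  congr 1
  ext f
  constructor
  · rintro ⟨T, hT, rfl⟩
    exact ⟨T, hT, rfl⟩
  · rintro ⟨T, hT, rfl⟩
    exact ⟨T, hT, rfl⟩

/-- The Alekhnovich-Razborov operator: no combination of monomials with empty closure is derivable in degree `E`. -/
theorem ar_disjoint {ι : Type} [Fintype ι] (S : ι → Finset (Fin n)) (σ : ι → X n) {E B p q : ℕ}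
    (hp : 1 ≤ p) (hB : 1 ≤ B) (hE1 : 1 ≤ E) (hE : 2 * q * E ≤ p * B) (hS : ∀ j, (S j).card ≤ E)
    (hbd : ∀ J : Finset ι, J.card ≤ B → p * J.card ≤ q * (H96RE.bd S J).card) :
    Disjoint (Submodule.span F (mono F '' {T : Finset (Fin n) | T.card ≤ E ∧ T ∈ H96RE.Good S B}))
      (PI F n (Set.range fun j => ind F (S j) (σ j)) E) := by
  have hX : Exq S B p q := hbd
  have hTE : ∀ T : Finset (Fin n), T.card ≤ E → 2 * q * T.card ≤ p * B :=
    fun T hT => (Nat.mul_le_mul_left _ hT).trans hE
  obtain ⟨o, ho⟩ := ord_exists n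
  choose P hP0 hPirr hPsub hPmono using fun J : Finset ι => proj o ho.1 (VJ F S σ J)
  -- the reduced monomial
  have hPv : ∀ (J : Finset ι) (T : Finset (Fin n)), P J (mono F T) ∈
      Submodule.span F (mono F '' {T' | ¬ Red o (VJ F S σ J) T' ∧ o T' ≤ o T ∧ T' ⊆ T ∪ J.biUnion S}) :=
    fun J T => proj_vars o ho.1 S σ J T _ (hPmono J T) (hPsub J (mono F T))
  have hcard : ∀ T T' : Finset (Fin n), o T' ≤ o T → T'.card ≤ T.card := by
    intro T T' h
    by_contra hc
    have := ho.2 T' T (by omega)
    omega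
  -- independence of the set of clauses
  have h1 : ∀ (T : Finset (Fin n)) (J : Finset ι), T.card ≤ E → Spt S B T ⊆ J → J.card ≤ B →
      P J (mono F T) = P (Spt S B T) (mono F T) := by
    intro T J hT hTJ hJ
    set c := Spt S B T with hc
    have h2 : P J (mono F T - P c (mono F T)) = 0 := hP0 J _ (VJ_mono S σ hTJ (hPsub c (mono F T)))
    rw [map_sub, sub_eq_zero] at h2
    rw [h2]
    have h3 : Set.EqOn (P J) (LinearMap.id (R := F) (M := X n → F))
        (mono F '' {T' | ¬ Red o (VJ F S σ c) T' ∧ o T' ≤ o T ∧ T' ⊆ T ∪ c.biUnion S}) := by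
      rintro _ ⟨T', ⟨hirr, hoT, hsub⟩, rfl⟩
      have hT' : T'.card ≤ E := (hcard T T' hoT).trans hT
      have hs : Spt S B T' ⊆ c := spt_sub hp hX (hTE T hT) (hTE T' hT') hsub
      show P J (mono F T') = mono F T'
      refine hPirr J T' fun hred => hirr ?_
      have h4 := red_spt o ho S σ hp hX T' (hTE T' hT') J hJ (hs.trans hTJ) hred
      have h5 : VJ F S σ (Spt S B T') ⊔ Submodule.span F (mono F '' {T'' | o T'' < o T'}) ≤
          VJ F S σ c ⊔ Submodule.span F (mono F '' {T'' | o T'' < o T'}) := sup_le_sup_right (VJ_mono S σ hs) _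
      exact h5 h4
    exact LinearMap.eqOn_span h3 (hPv c T)
  -- the operator
  let b := Module.Basis.mk (mono_indep F n) (mono_top F n).ge
  let R : (X n → F) →ₗ[F] (X n → F) :=
    b.constr F (fun T => if T.card ≤ E then P (Spt S B T) (mono F T) else 0)
  have hR : ∀ T : Finset (Fin n), T.card ≤ E → R (mono F T) = P (Spt S B T) (mono F T) := by
    intro T hT
    have hb : b T = mono F T := Module.Basis.mk_apply (mono_indep F n) (mono_top F n).ge T
    have h2 : R (b T) = if T.card ≤ E then P (Spt S B T) (mono F T) else 0 := b.constr_basis F _ T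
    rw [← hb, h2, if_pos hT, hb]
  -- multiplication
  have hmul : ∀ (i : Fin n) (e : ℕ), e + 1 ≤ E → ∀ g ∈ RM F n e,
      R (LinearMap.mulLeft F (mono F {i}) g) = R (LinearMap.mulLeft F (mono F {i}) (R g)) := by
    intro i e he g hg
    have h2 : Set.EqOn (R ∘ₗ LinearMap.mulLeft F (mono F {i}))
        (R ∘ₗ LinearMap.mulLeft F (mono F {i}) ∘ₗ R) (mono F '' {T : Finset (Fin n) | T.card ≤ e}) := by
      rintro _ ⟨T, hT, rfl⟩
      have hT1 : T.card ≤ e := hT
      have hTi : (insert i T).card ≤ E := (Finset.card_insert_le i T).trans (by omega)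
      have hTE' : T.card ≤ E := by omega
      set J := Spt S B (insert i T) with hJ
      have hJB : J.card ≤ B := spt_card hp hX (hTE _ hTi)
      have hcT : Spt S B T ⊆ J :=
        spt_sub hp hX (hTE _ hTi) (hTE _ hTE') ((Finset.subset_insert i T).trans Finset.subset_union_left)
      show R (LinearMap.mulLeft F (mono F {i}) (mono F T)) =
        R (LinearMap.mulLeft F (mono F {i}) (R (mono F T)))
      have h3 : R (LinearMap.mulLeft F (mono F {i}) (mono F T)) =
          P J (LinearMap.mulLeft F (mono F {i}) (mono F T)) := by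
        rw [mulL_mono, hR _ hTi]
      have h4 : P J (LinearMap.mulLeft F (mono F {i}) (mono F T)) =
          P J (LinearMap.mulLeft F (mono F {i}) (R (mono F T))) := by
        rw [← sub_eq_zero, ← map_sub, ← map_sub, hR T hTE']
        exact hP0 J _ (VJ_mul S σ J i _ (VJ_mono S σ hcT (hPsub _ (mono F T))))
      have h5 : Set.EqOn (P J ∘ₗ LinearMap.mulLeft F (mono F {i})) (R ∘ₗ LinearMap.mulLeft F (mono F {i}))
          (mono F '' {T' | ¬ Red o (VJ F S σ (Spt S B T)) T' ∧ o T' ≤ o T ∧ T' ⊆ T ∪ (Spt S B T).biUnion S}) := by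
        rintro _ ⟨T', ⟨hirr, hoT, hsub⟩, rfl⟩
        have hT' : T'.card ≤ e := (hcard T T' hoT).trans hT1
        have hT'i : (insert i T').card ≤ E := (Finset.card_insert_le i T').trans (by omega)
        have hs : Spt S B (insert i T') ⊆ J := by
          refine spt_sub hp hX (hTE _ hTi) (hTE _ hT'i) ?_
          intro v hv
          rcases Finset.mem_insert.mp hv with rfl | hv
          · exact Finset.mem_union_left _ (Finset.mem_insert_self _ _)
          · rcases Finset.mem_union.mp (hsub hv) with h6 | h6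
            · exact Finset.mem_union_left _ (Finset.mem_insert_of_mem h6)
            · exact Finset.mem_union_right _ (Finset.biUnion_subset_biUnion_of_subset_left S hcT h6)
        show P J (LinearMap.mulLeft F (mono F {i}) (mono F T')) =
          R (LinearMap.mulLeft F (mono F {i}) (mono F T'))
        rw [mulL_mono, hR _ hT'i, h1 _ J hT'i hs hJB]
      have h6 := LinearMap.eqOn_span h5 (hPv (Spt S B T) T)
      rw [← hR T hTE'] at h6
      rw [h3, h4]
      exact h6
    rw [RM_eq] at hg
    exact LinearMap.eqOn_span h2 hg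
  -- the clauses
  have hax : ∀ j, R (ind F (S j) (σ j)) = 0 := by
    intro j
    set J := Spt S B (S j) with hJ
    have hJB : J.card ≤ B := spt_card hp hX (hTE _ (hS j))
    have hjJ : j ∈ J := by
      have : ({j} : Finset ι) ⊆ J := spt_max (by rw [Finset.card_singleton]; exact hB) (by rw [bd_singleton])
      exact this (Finset.mem_singleton_self j)
    have h5 : Set.EqOn R (P J) (mono F '' {T' : Finset (Fin n) | T' ⊆ S j}) := by
      rintro _ ⟨T', hT', rfl⟩
      have hsub : T' ⊆ S j := hT'
      have hT'E : T'.card ≤ E := (Finset.card_le_card hsub).trans (hS j)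
      rw [hR _ hT'E, h1 _ J hT'E (spt_sub hp hX (hTE _ (hS j)) (hTE _ hT'E)
        (hsub.trans Finset.subset_union_left)) hJB]
    rw [LinearMap.eqOn_span h5 (ind_span (S j) (σ j))]
    refine hP0 J _ fun x hx => ?_
    show (if ∀ t ∈ S j, x t = σ j t then (1 : F) else 0) = 0
    exact if_neg (hx j hjJ)
  -- `PI` is contained in the kernel
  have hPC : PI F n (Set.range fun j => ind F (S j) (σ j)) E ≤ RM F n E ⊓ LinearMap.ker R := by
    refine sInf_le ⟨?_, ?_⟩
    · rintro _ ⟨j, rfl⟩
      exact Submodule.mem_inf.mpr ⟨span_RM (hS j) (ind_span (S j) (σ j)), LinearMap.mem_ker.mpr (hax j)⟩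
    · intro g hg hge i
      have hgR : R g = 0 := LinearMap.mem_ker.mp (Submodule.mem_inf.mp hg).2
      have h9 : mono F {i} * g ∈ RM F n (1 + (E - 1)) :=
        mul_mem_RM (mono_mem (by rw [Finset.card_singleton])) hge
      have h10 : 1 + (E - 1) = E := by omega
      rw [h10] at h9
      refine Submodule.mem_inf.mpr ⟨h9, LinearMap.mem_ker.mpr ?_⟩
      have h11 := hmul i (E - 1) (by omega) g hge
      rw [hgR, map_zero, map_zero, LinearMap.mulLeft_apply] at h11
      exact h11
  -- the good monomials are fixed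
  rw [Submodule.disjoint_def]
  intro f hf hfPC
  have h6 : Set.EqOn R (LinearMap.id (R := F) (M := X n → F))
      (mono F '' {T : Finset (Fin n) | T.card ≤ E ∧ T ∈ H96RE.Good S B}) := by
    rintro _ ⟨T, ⟨hT, hG⟩, rfl⟩
    show R (mono F T) = mono F T
    rw [hR T hT, spt_good hG]
    have := VJ_empty S σ _ (hPsub ∅ (mono F T))
    rw [sub_eq_zero] at this
    exact this.symm
  have h7 := LinearMap.eqOn_span h6 hf
  have h8 : R f = 0 := LinearMap.mem_ker.mp (hPC hfPC).2
  rw [h8] at h7
  exact h7.symm

/-- The empty monomial is good: `1` is not derivable in degree `E`. -/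
theorem one_notMem {ι : Type} [Fintype ι] (S : ι → Finset (Fin n)) (σ : ι → X n) {E B p q : ℕ}
    (hp : 1 ≤ p) (hB : 1 ≤ B) (hE1 : 1 ≤ E) (hE : 2 * q * E ≤ p * B) (hS : ∀ j, (S j).card ≤ E)
    (hbd : ∀ J : Finset ι, J.card ≤ B → p * J.card ≤ q * (H96RE.bd S J).card) :
    (1 : X n → F) ∉ PI F n (Set.range fun j => ind F (S j) (σ j)) E := by
  intro h
  have h1 : (1 : X n → F) ∈ Submodule.span F (mono F '' {T : Finset (Fin n) | T.card ≤ E ∧ T ∈ H96RE.Good S B}) := by
    rw [← mono_empty]
    refine Submodule.subset_span ⟨∅, ⟨by simp, ?_⟩, rfl⟩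
    intro J hJ hJB hsub
    have h2 := hbd J hJB
    have h3 : (H96RE.bd S J).card = 0 := by
      rw [Finset.card_eq_zero]
      exact Finset.subset_empty.mp hsub
    rw [h3, Nat.mul_zero] at h2
    have h4 : 0 < p * J.card := Nat.mul_pos hp hJ.card_pos
    omega
  have h2 := (Submodule.disjoint_def.mp (ar_disjoint (F := F) S σ hp hB hE1 hE hS hbd)) 1 h1 h
  have h3 := congrFun h2 (fun _ => true)
  exact one_ne_zero h3

end H33RG
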