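import Pool.Agent.H95.RE.Idl
import Pool.Agent.H91.RE.Cl

/-!
Normal forms modulo the ideal of a set of clauses over a general field (after helper91's file H91/RE/Nf; helper33).
-/

set_option autoImplicit false
open scoped Classical

namespace H33RG

open H95RE

variable {F : Type} [Field F] {n : ℕ}

theorem mono_apply (T : Finset (Fin n)) (x : X n) : mono F T x = if ∀ i ∈ T, x i = true then (1 : F) else 0 := rfl

/-- The indicator point of a set. -/
noncomputable def pt (T : Finset (Fin n)) : X n := fun i => decide (i ∈ T)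

theorem mono_pt (T T' : Finset (Fin n)) : mono F T' (pt T) = if T' ⊆ T then (1 : F) else 0 := by
  rw [mono_apply]
  by_cases h : T' ⊆ T
  · rw [if_pos h, if_pos]
    intro i hi
    exact decide_eq_true (h hi)
  · rw [if_neg h, if_neg]
    intro h'
    apply h
    intro i hi
    exact of_decide_eq_true (h' i hi)

theorem mono_indep (F : Type) [Field F] (n : ℕ) : LinearIndependent F (mono F : Finset (Fin n) → (X n → F)) := by
  rw [Fintype.linearIndependent_iff]
  intro g hg
  by_contra hcon
  rw [not_forall] at hcon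
  obtain ⟨T0, hT0⟩ := hcon
  obtain ⟨T, hT, hmin⟩ := Finset.exists_min_image (Finset.univ.filter (fun T => g T ≠ 0)) Finset.card
    ⟨T0, Finset.mem_filter.mpr ⟨Finset.mem_univ _, hT0⟩⟩
  have hgT := (Finset.mem_filter.mp hT).2
  apply hgT
  have h := congrFun hg (pt T)
  rw [Finset.sum_apply, Finset.sum_eq_single T] at h
  · rw [Pi.smul_apply, mono_pt, if_pos (Finset.Subset.refl T), smul_eq_mul, mul_one] at h
    exact h
  · intro T' _ hne
    rw [Pi.smul_apply, mono_pt]
    by_cases hs : T' ⊆ T
    · by_cases h0 : g T' = 0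
      · rw [h0, zero_smul]
      · have h1 := hmin T' (Finset.mem_filter.mpr ⟨Finset.mem_univ _, h0⟩)
        exact absurd (Finset.eq_of_subset_of_card_le hs h1) hne
    · rw [if_neg hs, smul_zero]
  · intro h
    exact absurd (Finset.mem_univ T) h

theorem mono_top (F : Type) [Field F] (n : ℕ) :
    Submodule.span F (Set.range (mono F : Finset (Fin n) → (X n → F))) = ⊤ := by
  refine (mono_indep F n).span_eq_top_of_card_eq_finrank' ?_
  rw [Module.finrank_pi]
  simp

/-- An order of the monomials: injective and refining the degree. -/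
def Ord {n : ℕ} (o : Finset (Fin n) → ℕ) : Prop :=
  Function.Injective o ∧ ∀ T T' : Finset (Fin n), T'.card < T.card → o T' < o T

theorem ord_exists (n : ℕ) : ∃ o : Finset (Fin n) → ℕ, Ord o := by
  let e := Fintype.equivFin (Finset (Fin n))
  set N := Fintype.card (Finset (Fin n)) with hN
  refine ⟨fun T => T.card * N + (e T : ℕ), ?_, ?_⟩
  · intro T T' h
    have h1 : (e T : ℕ) < N := (e T).2
    have h2 : (e T' : ℕ) < N := (e T').2
    have h3 : (T.card * N + (e T : ℕ)) % N = (T'.card * N + (e T' : ℕ)) % N := by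
      have h' : T.card * N + (e T : ℕ) = T'.card * N + (e T' : ℕ) := h
      rw [h']
    rw [Nat.mul_add_mod_self_right, Nat.mul_add_mod_self_right, Nat.mod_eq_of_lt h1, Nat.mod_eq_of_lt h2] at h3
    exact e.injective (Fin.ext h3)
  · intro T T' h
    have h2 : (e T' : ℕ) < N := (e T').2
    have h1 : (T'.card + 1) * N ≤ T.card * N := Nat.mul_le_mul_right _ h
    show T'.card * N + (e T' : ℕ) < T.card * N + (e T : ℕ)
    have h3 : (T'.card + 1) * N = T'.card * N + N := by ring
    omega

/-- `T` is reducible modulo `V` for the order `o` of the monomials. -/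
def Red {n : ℕ} (o : Finset (Fin n) → ℕ) (V : Submodule F (X n → F)) (T : Finset (Fin n)) : Prop :=
  mono F T ∈ V ⊔ Submodule.span F (mono F '' {T' | o T' < o T})

/-- The functions which vanish wherever all clauses of `J` are true. -/
def VJ (F : Type) [Field F] {n : ℕ} {ι : Type} (S : ι → Finset (Fin n)) (σ : ι → X n) (J : Finset ι) :
    Submodule F (X n → F) where
  carrier := {g | ∀ x, (∀ j ∈ J, ¬ ∀ v ∈ S j, x v = σ j v) → g x = 0}
  add_mem' := by
    intro a b ha hb x hx
    show a x + b x = 0
    rw [ha x hx, hb x hx, add_zero]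
  zero_mem' := by
    intro x _
    rfl
  smul_mem' := by
    intro c a ha x hx
    show c * a x = 0
    rw [ha x hx, mul_zero]

/-- Uniqueness: a function of `V` which is a combination of irreducible monomials is zero. -/
theorem irr_unique (o : Finset (Fin n) → ℕ) (ho : Function.Injective o) (V : Submodule F (X n → F))
    (g : X n → F) (hV : g ∈ V) (hg : g ∈ Submodule.span F (mono F '' {T' | ¬ Red o V T'})) : g = 0 := by
  rw [Finsupp.mem_span_image_iff_linearCombination] at hg
  obtain ⟨l, hl, rfl⟩ := hg
  by_contra hne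
  have hl0 : l ≠ 0 := by
    rintro rfl
    exact hne (by simp)
  have hsne : l.support.Nonempty := Finsupp.support_nonempty_iff.mpr hl0
  obtain ⟨T, hT, hmax⟩ := Finset.exists_max_image l.support o hsne
  have hTirr : ¬ Red o V T := by
    have := (Finsupp.mem_supported F l).mp hl
    exact this hT
  apply hTirr
  have hsum : Finsupp.linearCombination F (mono F : Finset (Fin n) → (X n → F)) l
      = l T • mono F T + ∑ T' ∈ l.support.erase T, l T' • mono F T' := by
    rw [Finsupp.linearCombination_apply, Finsupp.sum, ← Finset.add_sum_erase _ _ hT]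
  have hlT : l T ≠ 0 := Finsupp.mem_support_iff.mp hT
  have hrest : ∑ T' ∈ l.support.erase T, l T' • mono F T' ∈
      Submodule.span F (mono F '' {T' | o T' < o T} : Set (X n → F)) := by
    refine Submodule.sum_mem _ fun T' hT' => Submodule.smul_mem _ _ (Submodule.subset_span ⟨T', ?_, rfl⟩)
    rw [Finset.mem_erase] at hT'
    rcases lt_or_eq_of_le (hmax T' hT'.2) with h | h
    · exact h
    · exact absurd (ho h) hT'.1
  have heq : mono F T = (l T)⁻¹ • (Finsupp.linearCombination F (mono F : Finset (Fin n) → (X n → F)) l)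
      + (-(l T)⁻¹) • ∑ T' ∈ l.support.erase T, l T' • mono F T' := by
    rw [hsum, smul_add, smul_smul, inv_mul_cancel₀ hlT, one_smul, neg_smul]
    abel
  show mono F T ∈ V ⊔ Submodule.span F (mono F '' {T' | o T' < o T})
  rw [heq]
  exact Submodule.add_mem_sup (Submodule.smul_mem _ _ hV) (Submodule.smul_mem _ _ hrest)

theorem mono_mem_sup (o : Finset (Fin n) → ℕ) (V : Submodule F (X n → F)) : ∀ (N : ℕ) (T : Finset (Fin n)),
    o T = N → mono F T ∈ V ⊔ Submodule.span F (mono F '' {T' | ¬ Red o V T' ∧ o T' ≤ o T}) := by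
  intro N
  induction N using Nat.strong_induction_on with
  | _ N ih =>
    intro T hT
    by_cases hR : Red o V T
    · have hle : V ⊔ Submodule.span F (mono F '' {T' | o T' < o T}) ≤
          V ⊔ Submodule.span F (mono F '' {T' | ¬ Red o V T' ∧ o T' ≤ o T}) := by
        refine sup_le le_sup_left (Submodule.span_le.mpr ?_)
        rintro _ ⟨T', hT', rfl⟩
        have h1 : o T' < o T := hT'
        have h2 := ih (o T') (by omega) T' rfl
        refine (sup_le_sup_left (Submodule.span_mono ?_) V) h2
        rintro _ ⟨T'', hT'', rfl⟩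
        exact ⟨T'', ⟨hT''.1, hT''.2.trans h1.le⟩, rfl⟩
      exact hle hR
    · exact Submodule.mem_sup_right (Submodule.subset_span ⟨T, ⟨hR, le_rfl⟩, rfl⟩)

theorem proj (o : Finset (Fin n) → ℕ) (ho : Function.Injective o) (V : Submodule F (X n → F)) :
    ∃ P : (X n → F) →ₗ[F] (X n → F), (∀ g ∈ V, P g = 0) ∧ (∀ T, ¬ Red o V T → P (mono F T) = mono F T) ∧
      (∀ g, g - P g ∈ V) ∧
      (∀ T, P (mono F T) ∈ Submodule.span F (mono F '' {T' | ¬ Red o V T' ∧ o T' ≤ o T})) := by
  set W : Submodule F (X n → F) := Submodule.span F (mono F '' {T' | ¬ Red o V T'}) with hW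
  have hWT : ∀ T, Submodule.span F (mono F '' {T' | ¬ Red o V T' ∧ o T' ≤ o T}) ≤ W := by
    intro T
    refine Submodule.span_mono ?_
    rintro _ ⟨T', hT', rfl⟩
    exact ⟨T', hT'.1, rfl⟩
  have hc : IsCompl W V := by
    constructor
    · rw [Submodule.disjoint_def]
      intro g hg hgV
      exact irr_unique o ho V g hgV hg
    · rw [codisjoint_iff, eq_top_iff, ← mono_top F n, Submodule.span_le]
      rintro _ ⟨T, rfl⟩
      have h := mono_mem_sup o V (o T) T rfl
      rw [sup_comm]
      exact (sup_le_sup_left (hWT T) V) h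
  refine ⟨W.projection V hc, ?_, ?_, ?_, ?_⟩
  · intro g hg
    exact (Submodule.projection_apply_eq_zero_iff hc).mpr hg
  · intro T hT
    exact Submodule.projection_apply_of_mem_left hc (Submodule.subset_span ⟨T, hT, rfl⟩)
  · intro g
    rw [← Submodule.projection_eq_self_sub_projection hc]
    exact Submodule.projection_apply_mem hc.symm g
  · intro T
    obtain ⟨v, hv, w, hw, hvw⟩ := Submodule.mem_sup.mp (mono_mem_sup o V (o T) T rfl)
    rw [← hvw, map_add, (Submodule.projection_apply_eq_zero_iff hc).mpr hv,
      Submodule.projection_apply_of_mem_left hc (hWT T hw), zero_add]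
    exact hw

/-- Restriction of functions to the coordinates in `A` (the other coordinates are set to zero). -/
noncomputable def setz (F : Type) [Field F] (A : Finset (Fin n)) : (X n → F) →ₗ[F] (X n → F) :=
  LinearMap.funLeft F F (fun (x : X n) (i : Fin n) => if i ∈ A then x i else false)

theorem setz_apply (A : Finset (Fin n)) (g : X n → F) (x : X n) :
    setz F A g x = g (fun i => if i ∈ A then x i else false) := rfl

theorem setz_mono_of_subset (A T : Finset (Fin n)) (h : T ⊆ A) : setz F A (mono F T) = mono F T := by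
  funext x
  rw [setz_apply, mono_apply, mono_apply]
  have h1 : (∀ i ∈ T, (if i ∈ A then x i else false) = true) ↔ ∀ i ∈ T, x i = true :=
    forall₂_congr fun i hi => by rw [if_pos (h hi)]
  exact if_congr h1 rfl rfl

theorem setz_mono_of_not_subset (A T : Finset (Fin n)) (h : ¬ T ⊆ A) : setz F A (mono F T) = 0 := by
  funext x
  rw [setz_apply, mono_apply]
  obtain ⟨i, hi, hiA⟩ := Finset.not_subset.mp h
  have h1 : ¬ ∀ i ∈ T, (if i ∈ A then x i else false) = true := by
    intro h2
    have h3 := h2 i hi
    rw [if_neg hiA] at h3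
    exact Bool.false_ne_true h3
  rw [if_neg h1]
  rfl

theorem proj_vars {ι : Type} (o : Finset (Fin n) → ℕ) (ho : Function.Injective o) (S : ι → Finset (Fin n))
    (σ : ι → X n) (J : Finset ι) (T : Finset (Fin n)) (r : X n → F)
    (hr : r ∈ Submodule.span F (mono F '' {T' | ¬ Red o (VJ F S σ J) T' ∧ o T' ≤ o T}))
    (hV : mono F T - r ∈ VJ F S σ J) :
    r ∈ Submodule.span F (mono F '' {T' | ¬ Red o (VJ F S σ J) T' ∧ o T' ≤ o T ∧ T' ⊆ T ∪ J.biUnion S}) := by
  set A := T ∪ J.biUnion S with hA
  have h1 : setz F A r ∈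
      Submodule.span F (mono F '' {T' | ¬ Red o (VJ F S σ J) T' ∧ o T' ≤ o T ∧ T' ⊆ A}) := by
    have hle : Submodule.span F (mono F '' {T' | ¬ Red o (VJ F S σ J) T' ∧ o T' ≤ o T}) ≤
        Submodule.comap (setz F A)
          (Submodule.span F (mono F '' {T' | ¬ Red o (VJ F S σ J) T' ∧ o T' ≤ o T ∧ T' ⊆ A})) := by
      rw [Submodule.span_le]
      rintro _ ⟨T', hT', rfl⟩
      show setz F A (mono F T') ∈
        Submodule.span F (mono F '' {T' | ¬ Red o (VJ F S σ J) T' ∧ o T' ≤ o T ∧ T' ⊆ A})
      by_cases hs : T' ⊆ A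
      · rw [setz_mono_of_subset A T' hs]
        exact Submodule.subset_span ⟨T', ⟨hT'.1, hT'.2, hs⟩, rfl⟩
      · rw [setz_mono_of_not_subset A T' hs]
        exact Submodule.zero_mem _
    exact hle hr
  have hinv : ∀ g ∈ VJ F S σ J, setz F A g ∈ VJ F S σ J := by
    intro g hg x hx
    rw [setz_apply]
    refine hg _ fun j hj hall => hx j hj fun v hv => ?_
    have := hall v hv
    rwa [if_pos (Finset.mem_union_right _ (Finset.mem_biUnion.mpr ⟨j, hj, hv⟩))] at this
  have h2 : mono F T - setz F A r ∈ VJ F S σ J := by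
    have := hinv _ hV
    rwa [map_sub, setz_mono_of_subset A T Finset.subset_union_left] at this
  have h3 : r - setz F A r ∈ VJ F S σ J := by
    have := Submodule.sub_mem _ h2 hV
    rwa [sub_sub_sub_cancel_left] at this
  have h4 : r - setz F A r ∈ Submodule.span F (mono F '' {T' | ¬ Red o (VJ F S σ J) T'}) := by
    refine Submodule.sub_mem _ (Submodule.span_mono ?_ hr) (Submodule.span_mono ?_ h1)
    · rintro _ ⟨T', hT', rfl⟩
      exact ⟨T', hT'.1, rfl⟩
    · rintro _ ⟨T', hT', rfl⟩
      exact ⟨T', hT'.1, rfl⟩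
  have h5 := irr_unique o ho _ _ h3 h4
  rw [sub_eq_zero] at h5
  rw [h5]
  exact h1

/-- Substitution of the value `b` for the variable `v`. -/
noncomputable def subst (F : Type) [Field F] (v : Fin n) (b : Bool) : (X n → F) →ₗ[F] (X n → F) :=
  LinearMap.funLeft F F (fun (x : X n) => Function.update x v b)

theorem subst_apply (v : Fin n) (b : Bool) (g : X n → F) (x : X n) :
    subst F v b g x = g (Function.update x v b) := rfl

theorem subst_mono_notMem (v : Fin n) (b : Bool) (T : Finset (Fin n)) (h : v ∉ T) :
    subst F v b (mono F T) = mono F T := by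
  funext x
  rw [subst_apply, mono_apply, mono_apply]
  have h1 : (∀ i ∈ T, Function.update x v b i = true) ↔ ∀ i ∈ T, x i = true := by
    refine forall₂_congr fun i hi => ?_
    rw [Function.update_of_ne]
    rintro rfl
    exact h hi
  exact if_congr h1 rfl rfl

theorem subst_mono_mem (v : Fin n) (b : Bool) (T : Finset (Fin n)) (h : v ∈ T) :
    subst F v b (mono F T) = (if b = true then (1 : F) else 0) • mono F (T.erase v) := by
  funext x
  rw [subst_apply, mono_apply, Pi.smul_apply, mono_apply, smul_eq_mul]
  have h1 : (∀ i ∈ T, Function.update x v b i = true) ↔ (b = true ∧ ∀ i ∈ T.erase v, x i = true) := by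
    constructor
    · intro hall
      constructor
      · have := hall v h
        rwa [Function.update_self] at this
      · intro i hi
        have := hall i (Finset.mem_of_mem_erase hi)
        rwa [Function.update_of_ne (Finset.ne_of_mem_erase hi)] at this
    · rintro ⟨hb, hall⟩ i hi
      by_cases hiv : i = v
      · subst hiv
        rwa [Function.update_self]
      · rw [Function.update_of_ne hiv]
        exact hall i (Finset.mem_erase.mpr ⟨hiv, hi⟩)
  by_cases hb : b = true
  · rw [if_pos hb, one_mul]
    exact if_congr (h1.trans (and_iff_right hb)) rfl rfl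
  · rw [if_neg hb, zero_mul, if_neg]
    intro h2
    exact hb (h1.mp h2).1

theorem red_erase {ι : Type} (o : Finset (Fin n) → ℕ) (ho : Ord o) (S : ι → Finset (Fin n))
    (σ : ι → X n) (J : Finset ι) (j : ι) (hj : j ∈ J) (v : Fin n) (hv : v ∈ S j) (T : Finset (Fin n))
    (hvT : v ∉ T) (hp : ∀ j' ∈ J, v ∈ S j' → j' = j) (h : Red o (VJ F S σ J) T) :
    Red o (VJ F S σ (J.erase j)) T := by
  set b : Bool := !(σ j v) with hb
  have hbne : b ≠ σ j v := by
    rw [hb]
    cases σ j v <;> simp
  have h1 : ∀ g ∈ VJ F S σ J, subst F v b g ∈ VJ F S σ (J.erase j) := by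
    intro g hg x hx
    rw [subst_apply]
    refine hg _ fun j' hj' hall => ?_
    by_cases hjj : j' = j
    · subst hjj
      have := hall v hv
      rw [Function.update_self] at this
      exact hbne this
    · have hvj : v ∉ S j' := fun hv' => hjj (hp j' hj' hv')
      refine hx j' (Finset.mem_erase.mpr ⟨hjj, hj'⟩) fun u hu => ?_
      have := hall u hu
      rwa [Function.update_of_ne] at this
      rintro rfl
      exact hvj hu
  have h2 : ∀ w ∈ Submodule.span F (mono F '' {T' | o T' < o T} : Set (X n → F)),
      subst F v b w ∈ Submodule.span F (mono F '' {T' | o T' < o T} : Set (X n → F)) := by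
    have hle : Submodule.span F (mono F '' {T' | o T' < o T} : Set (X n → F)) ≤
        Submodule.comap (subst F v b) (Submodule.span F (mono F '' {T' | o T' < o T} : Set (X n → F))) := by
      rw [Submodule.span_le]
      rintro _ ⟨T', hT', rfl⟩
      have hT'' : o T' < o T := hT'
      show subst F v b (mono F T') ∈ Submodule.span F (mono F '' {T' | o T' < o T} : Set (X n → F))
      by_cases hvT' : v ∈ T'
      · rw [subst_mono_mem v b T' hvT']
        refine Submodule.smul_mem _ _ (Submodule.subset_span ⟨T'.erase v, ?_, rfl⟩)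
        exact (ho.2 _ _ (Finset.card_erase_lt_of_mem hvT')).trans hT''
      · rw [subst_mono_notMem v b T' hvT']
        exact Submodule.subset_span ⟨T', hT'', rfl⟩
    exact fun w hw => hle hw
  obtain ⟨g, hg, w, hw, hgw⟩ := Submodule.mem_sup.mp (show mono F T ∈ VJ F S σ J ⊔
    Submodule.span F (mono F '' {T' | o T' < o T}) from h)
  show mono F T ∈ VJ F S σ (J.erase j) ⊔ Submodule.span F (mono F '' {T' | o T' < o T})
  have h3 : mono F T = subst F v b g + subst F v b w := by
    rw [← map_add, hgw, subst_mono_notMem v b T hvT]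
  rw [h3]
  exact Submodule.add_mem_sup (h1 g hg) (h2 w hw)

open H91RE in
theorem red_spt {B p q : ℕ} {ι : Type} [Fintype ι] (o : Finset (Fin n) → ℕ) (ho : Ord o) (S : ι → Finset (Fin n))
    (σ : ι → X n) (hp : 1 ≤ p) (hS : Exq S B p q) (T : Finset (Fin n)) (hT : 2 * q * T.card ≤ p * B)
    (J : Finset ι) (hJ : J.card ≤ B) (h1 : Spt S B T ⊆ J) (h : Red o (VJ F S σ J) T) :
    Red o (VJ F S σ (Spt S B T)) T := by
  obtain ⟨N, hN⟩ : ∃ N, J.card = N := ⟨_, rfl⟩
  induction N using Nat.strong_induction_on generalizing J with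
  | _ N ih =>
    by_cases hne : J = Spt S B T
    · rw [hne] at h
      exact h
    · obtain ⟨j, hj, hjs, v, hv, hvT, hu⟩ := spt_private hp hS hT hJ h1 hne
      have hlt := Finset.card_erase_lt_of_mem hj
      refine ih (J.erase j).card (by omega) (J.erase j) (by omega) ?_ ?_ rfl
      · intro a ha
        rw [Finset.mem_erase]
        refine ⟨?_, h1 ha⟩
        rintro rfl
        exact hjs ha
      · exact red_erase o ho S σ J j hj v hv T hvT hu h

end H33RG
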